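import Pool.Agent.Helper54.FIN.WinDef
import Pool.Agent.Helper54.RT.Red
import Pool.Agent.Helper54.AN.Aut3
import Pool.Agent.Helper54.PR.Product
import Pool.Agent.Helper54.PR.SLDef
import Pool.Agent.Helper54.PR.SLCross

/-!
# Unconditional classes of groups
-/

set_option autoImplicit false
set_option linter.unusedVariables false
open scoped Pointwise
open Pool.Agent.Helper54.PW Pool.Agent.Helper54.RT Pool.Agent.Helper54.AN Pool.Agent.Helper54.PR

namespace Pool.Agent.Helper54.FIN

/-- an alternating group, or `PSL_m(F)` for a pair `m, F` as in `Win` if its automorphisms of order `p` are inner -/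
def Good (p : ℕ) (S : Type) [Group S] : Prop :=
  (∃ n : ℕ, Nonempty (S ≃* alternatingGroup (Fin n))) ∨
  ((∃ (m : ℕ) (F : Type) (_ : Field F) (_ : Finite F), Win p m F ∧
      Nonempty (S ≃* Matrix.SpecialLinearGroup (Fin m) F ⧸
        Subgroup.center (Matrix.SpecialLinearGroup (Fin m) F))) ∧
    ∀ α : MulAut S, orderOf α = p → ∃ s : S, α = MulAut.conj s)

theorem ra_psl {p : ℕ} [Fact p.Prime] (hp5 : 5 ≤ p) {k : Type} [Field k] [IsAlgClosed k]
    [CharP k p] {m : ℕ} {F : Type} [Field F] [Finite F] (h : Win p m F)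
    (s : Matrix.SpecialLinearGroup (Fin m) F ⧸
      Subgroup.center (Matrix.SpecialLinearGroup (Fin m) F)) (hs : orderOf s = p) :
    RealAct k (Subgroup.zpowers s) := by
  obtain ⟨hm, hF, h⟩ := h
  rcases h with h | ⟨h1, h2, h3⟩
  · exact win_sl_def hp5 hm s hs
  · refine win_sl_cross hF ?_ hm h2 h3 s hs
    intro h0
    apply h1
    haveI := ringChar.charP F
    have h4 : ringChar F ∣ p := ringChar.dvd h0
    have h5 : ringChar F = p := by
      rcases (Nat.dvd_prime (Fact.out : p.Prime)).1 h4 with h6 | h6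
      · exfalso
        have := CharP.ringChar_ne_one (R := F)
        exact this h6
      · exact h6
    rw [← h5]
    infer_instance

theorem aa_good {p : ℕ} [Fact p.Prime] (hp5 : 5 ≤ p) {k : Type} [Field k] [IsAlgClosed k]
    [CharP k p] {S : Type} [Group S] [Finite S] [IsSimpleGroup S]
    (hna : ∃ a b : S, a * b ≠ b * a) (hpd : p ∣ Nat.card S) (hS : Good p S) (α : MulAut S)
    (hα : orderOf α = p) : AA k α := by
  have hp : p.Prime := Fact.out
  rcases hS with ⟨n, ⟨e⟩⟩ | ⟨⟨m, F, _, _, hW, ⟨e⟩⟩, hinn⟩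
  · have h1 : p ∣ Nat.card (alternatingGroup (Fin n)) := by
      rw [← Nat.card_congr e.toEquiv]; exact hpd
    have h2 : p ∣ Nat.factorial n := by
      have h3 : Nat.card (alternatingGroup (Fin n)) ∣ Nat.card (Equiv.Perm (Fin n)) :=
        Subgroup.card_subgroup_dvd_card _
      have h4 : Nat.card (Equiv.Perm (Fin n)) = Nat.factorial n := by
        rw [Nat.card_eq_fintype_card, Fintype.card_perm, Fintype.card_fin]
      rw [h4] at h3
      exact h1.trans h3
    have h5 : p ≤ n := (hp.dvd_factorial).1 h2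
    exact aa_alt hp5 (by rw [Fintype.card_fin]; omega) e α hα
  · obtain ⟨s, hs⟩ := hinn α hα
    have hc : Subgroup.center S = ⊥ := by
      rcases IsSimpleGroup.eq_bot_or_eq_top_of_normal (Subgroup.center S) inferInstance with h | h
      · exact h
      · exfalso
        obtain ⟨a, b, hab⟩ := hna
        apply hab
        have h1 : b ∈ Subgroup.center S := by rw [h]; exact Subgroup.mem_top b
        exact (Subgroup.mem_center_iff.1 h1 a)
    have hinj : Function.Injective (MulAut.conj : S →* MulAut S) := by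
      rw [← MonoidHom.ker_eq_bot_iff, eq_bot_iff, ← hc]
      intro x hx
      rw [Subgroup.mem_center_iff]
      intro y
      have h1 : MulAut.conj x y = y := by
        rw [(MonoidHom.mem_ker).1 hx]; rfl
      rw [MulAut.conj_apply] at h1
      calc y * x = (x * y * x⁻¹) * x := by rw [h1]
        _ = x * y := by group
    have hs1 : orderOf s = p := by
      rw [← hα, hs]
      exact (orderOf_injective _ hinj s).symm
    have h2 : RealAct k (Subgroup.zpowers (e s)) := by
      refine ra_psl hp5 hW (e s) ?_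
      rw [MulEquiv.orderOf_eq, hs1]
    have h3 : RealAct k (Subgroup.zpowers s) := by
      have h4 := ra_map e.symm.toMonoidHom e.symm.surjective h2
      have h5 : (Subgroup.zpowers (e s)).map e.symm.toMonoidHom = Subgroup.zpowers s := by
        rw [MonoidHom.map_zpowers]
        congr 1
        exact e.symm_apply_apply s
      rwa [h5] at h4
    rw [hs]
    exact aa_of_inner hc s h3

theorem hypW_good {p : ℕ} [Fact p.Prime] (hp5 : 5 ≤ p) {k : Type} [Field k] [IsAlgClosed k]
    [CharP k p] {G : Type} [Group G] [Finite G] (P R : Subgroup G)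
    (hR : ∀ (A B : Subgroup G) [(A.subgroupOf B).Normal], A ≤ B → B ≤ R → B.IsSubnormal →
      IsSimpleGroup (B ⧸ A.subgroupOf B) → (∃ a b : B ⧸ A.subgroupOf B, a * b ≠ b * a) →
      p ∣ Nat.card (B ⧸ A.subgroupOf B) → Good p (B ⧸ A.subgroupOf B)) :
    HypW p k P R := by
  intro A B _ hAB hBR hB hS hna hpd y hy α hα hind
  exact aa_good hp5 hna hpd (hR A B hAB hBR hB hS hna hpd) α hα

theorem realAct_class {p : ℕ} [Fact p.Prime] (hp5 : 5 ≤ p) {k : Type} [Field k] [IsAlgClosed k]
    [CharP k p] {ι : Type} [Finite ι] (m : ι → ℕ) (F : ι → Type)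
    [∀ i, Field (F i)] [∀ i, Finite (F i)] (hc : ∀ i, Win p (m i) (F i))
    {G : Type} [Group G] [Finite G] (R : Subgroup G) [R.Normal]
    (hR : ∀ (A B : Subgroup G) [(A.subgroupOf B).Normal], A ≤ B → B ≤ R → B.IsSubnormal →
      IsSimpleGroup (B ⧸ A.subgroupOf B) → (∃ a b : B ⧸ A.subgroupOf B, a * b ≠ b * a) →
      p ∣ Nat.card (B ⧸ A.subgroupOf B) → Good p (B ⧸ A.subgroupOf B))
    (π : (∀ i, Matrix.SpecialLinearGroup (Fin (m i)) (F i)) →* G ⧸ R)
    (hπ : Function.Surjective π) {P : Subgroup G} (hP : IsPGroup p P)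
    (hgen : Subgroup.normalClosure (P : Set G) = ⊤) : RealAct k P := by
  refine (reduction_iff (by omega) R hP hgen (hypW_good hp5 P R hR)).2 ?_
  refine realAct_product (fun i => Matrix.SpecialLinearGroup (Fin (m i)) (F i))
    (fun i => sl_qs (hc i).2.1 (hc i).1) ?_ π hπ (hP.map _) ?_
  · intro i s hs
    exact ra_psl hp5 (hc i) s hs
  · have h1 := Subgroup.map_normalClosure (P : Set G) (QuotientGroup.mk' R)
      (QuotientGroup.mk'_surjective R)
    rw [hgen, Subgroup.map_top_of_surjective _ (QuotientGroup.mk'_surjective R)] at h1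
    rw [Subgroup.coe_map]
    exact h1.symm

end Pool.Agent.Helper54.FIN
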