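import Pool.Agent.Helper54.FIN.WinDef
import Pool.Agent.Helper54.CL.Defs

/-!
# The classes of groups in MP_63a9db_ag.ClassicalGroups
-/

set_option autoImplicit false
set_option linter.unusedVariables false
open Pool.Agent.Helper54.CL

namespace Pool.Agent.Helper54.FIN

/-- every element of `GG l` which is not a scalar, but whose `p`-th power is, leaves invariant a totally isotropic
subspace `W ≠ 0` (the elements of order `p` of the simple group are in proper parabolic subgroups) -/
def ParCond (p l : ℕ) {F V : Type} [Field F] [AddCommGroup V] [Module F V] (h : HF F V) : Prop :=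
  ∀ g ∈ h.GG l, (∃ c : F, ∀ v, (g ^ p) v = c • v) → (¬ ∃ c : F, ∀ v, g v = c • v) →
    ∃ W : Submodule F V, W ≠ ⊥ ∧ (∀ v ∈ W, ∀ w ∈ W, h.B v w = 0) ∧ ∀ v ∈ W, g v ∈ W

/-- `SL_m(F)` with `Win p m F` -/
def LinX (p : ℕ) (X : Type) [Group X] : Prop :=
  ∃ (m : ℕ) (F : Type) (_ : Field F) (_ : Finite F), Win p m F ∧
    Nonempty (X ≃* Matrix.SpecialLinearGroup (Fin m) F)

/-- the group generated by the isometries of `l`-power order of a nondegenerate form over a finite field of
characteristic `l ≥ 5`, where `l = p`, or the dimension is at least `p + 2`, or `ParCond p l` holds -/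
def FormX (p : ℕ) (X : Type) [Group X] : Prop :=
  ∃ (F V : Type) (_ : Field F) (_ : Finite F) (_ : AddCommGroup V) (_ : Module F V)
    (_ : Finite V) (h : HF F V) (l : ℕ), l.Prime ∧ 5 ≤ l ∧ CharP F l ∧ h.Ok ∧
    (l = p ∨ p + 2 ≤ Module.finrank F V ∨ ParCond p l h) ∧ Nonempty (X ≃* h.GG l)

/-- the class of quasisimple groups which are treated -/
def ClassX (p : ℕ) (X : Type) [Group X] : Prop := LinX p X ∨ FormX p X

/-- `S` is isomorphic to `X` modulo its center -/
def ModCenter (S X : Type) [Group S] [Group X] : Prop := Nonempty (S ≃* X ⧸ Subgroup.center X)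

/-- `PSL_m(F)`, `F` finite of characteristic `p` -/
def LinS (p : ℕ) (S : Type) [Group S] : Prop :=
  ∃ (m : ℕ) (F : Type) (_ : Field F) (_ : Finite F), 2 ≤ m ∧ CharP F p ∧
    ModCenter S (Matrix.SpecialLinearGroup (Fin m) F)

/-- `PSp(V)`, `PSU(V)`, `PΩ(V)` for `V` over a finite field of characteristic `p`, with isotropic vectors; of dimension
at least 5 in the symmetric case -/
def FormS (p : ℕ) (S : Type) [Group S] : Prop :=
  ∃ (F V : Type) (_ : Field F) (_ : Finite F) (_ : AddCommGroup V) (_ : Module F V)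
    (_ : Finite V) (h : HF F V), CharP F p ∧ h.Ok ∧ (h.IsO → 5 ≤ Module.finrank F V) ∧
    ModCenter S (h.GG p)

/-- the simple groups which are allowed as composition factors of `R`: alternating, classical in characteristic `p`,
or `X / Z(X)` for `X` with `ClassX p X` if all its automorphisms of order `p` are inner -/
def ClassS (p : ℕ) (S : Type) [Group S] : Prop :=
  (∃ n : ℕ, Nonempty (S ≃* alternatingGroup (Fin n))) ∨ LinS p S ∨ FormS p S ∨
  ((∃ (X : Type) (_ : Group X), ClassX p X ∧ ModCenter S X) ∧
    ∀ α : MulAut S, orderOf α = p → ∃ s : S, α = MulAut.conj s)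

end Pool.Agent.Helper54.FIN
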