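import Pool.Agent.Helper54.FIN.Class
import Pool.Agent.Helper54.FIN.ClassDef
import Pool.Agent.Helper54.CL.Win
import Pool.Agent.Helper54.CL.WinX
import Pool.Agent.Helper54.OC.SLMain
import Pool.Agent.Helper54.OC.PtMain
import Pool.Agent.Helper54.OC.LnMain

/-!
# Unconditional classes of groups, second version: classical groups
-/

set_option autoImplicit false
set_option linter.unusedVariables false
open scoped Pointwise
open Pool.Agent.Helper54.PW Pool.Agent.Helper54.RT Pool.Agent.Helper54.AN Pool.Agent.Helper54.PR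
open Pool.Agent.Helper54.CL Pool.Agent.Helper54.OC

namespace Pool.Agent.Helper54.FIN

theorem qs_congr {X Y : Type} [Group X] [Group Y] (e : X ≃* Y) (h : QS Y) : QS X := by
  obtain ⟨h1, h2⟩ := h
  constructor
  · have h3 : (commutator Y).map e.symm.toMonoidHom = commutator X := by
      rw [commutator_def, commutator_def, Subgroup.map_commutator]
      congr 1 <;> exact Subgroup.map_top_of_surjective _ e.symm.surjective
    rw [← h3, h1]
    exact Subgroup.map_top_of_surjective _ e.symm.surjective
  · intro N hN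
    have hN' : (N.map e.toMonoidHom).Normal := Subgroup.Normal.map hN e.toMonoidHom e.surjective
    rcases h2 _ hN' with h3 | h3
    · left
      intro x hx
      have h4 : e x ∈ Subgroup.center Y := h3 ⟨x, hx, rfl⟩
      rw [Subgroup.mem_center_iff] at h4 ⊢
      intro y
      apply e.injective
      rw [map_mul, map_mul]
      exact h4 (e y)
    · right
      rw [Subgroup.eq_top_iff']
      intro x
      have h4 : e x ∈ N.map e.toMonoidHom := by rw [h3]; exact Subgroup.mem_top _
      obtain ⟨y, hy, hxy⟩ := h4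
      have h5 : y = x := e.injective hxy
      rwa [← h5]

theorem center_map {X Y : Type} [Group X] [Group Y] (e : X ≃* Y) :
    (Subgroup.center X).map e.toMonoidHom = Subgroup.center Y := by
  ext y
  constructor
  · rintro ⟨x, hx, rfl⟩
    rw [Subgroup.mem_center_iff]
    intro z
    obtain ⟨z', rfl⟩ := e.surjective z
    show e z' * e x = e x * e z'
    rw [← map_mul, (Subgroup.mem_center_iff.1 hx) z', map_mul]
  · intro hy
    refine ⟨e.symm y, ?_, e.apply_symm_apply y⟩
    rw [SetLike.mem_coe, Subgroup.mem_center_iff]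
    intro z
    apply e.injective
    rw [map_mul, map_mul, e.apply_symm_apply]
    exact (Subgroup.mem_center_iff.1 hy) (e z)

theorem win_congr {p : ℕ} {k : Type} [Field k] {X Y : Type} [Group X] [Group Y] (e : X ≃* Y)
    (h : ∀ s : Y ⧸ Subgroup.center Y, orderOf s = p → RealAct k (Subgroup.zpowers s))
    (s : X ⧸ Subgroup.center X) (hs : orderOf s = p) : RealAct k (Subgroup.zpowers s) := by
  let E : (X ⧸ Subgroup.center X) ≃* (Y ⧸ Subgroup.center Y) :=
    QuotientGroup.congr _ _ e (center_map e)
  have h1 := h (E s) (by rw [MulEquiv.orderOf_eq, hs])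
  have h2 := ra_map E.symm.toMonoidHom E.symm.surjective h1
  have h3 : (Subgroup.zpowers (E s)).map E.symm.toMonoidHom = Subgroup.zpowers s := by
    rw [MonoidHom.map_zpowers]
    congr 1
    exact E.symm_apply_apply s
  rwa [h3] at h2

theorem classX_qs {p : ℕ} {X : Type} [Group X] (h : ClassX p X) : QS X := by
  rcases h with ⟨m, F, _, _, hW, ⟨e⟩⟩ | ⟨F, V, _, _, _, _, _, h, l, hl, hl5, hF, hok, hd, ⟨e⟩⟩
  · exact qs_congr e (sl_qs hW.2.1 hW.1)
  · haveI : Fact l.Prime := ⟨hl⟩
    exact qs_congr e (h.qs_GG hl5 hok)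

theorem classX_win {p : ℕ} [Fact p.Prime] (hp5 : 5 ≤ p) {k : Type} [Field k] [IsAlgClosed k]
    [CharP k p] {X : Type} [Group X] (hX : ClassX p X) (s : X ⧸ Subgroup.center X)
    (hs : orderOf s = p) : RealAct k (Subgroup.zpowers s) := by
  rcases hX with ⟨m, F, _, _, hW, ⟨e⟩⟩ | ⟨F, V, _, _, _, _, _, h, l, hl, hl5, hF, hok, hd, ⟨e⟩⟩
  · exact win_congr e (ra_psl hp5 hW) s hs
  · haveI : Fact l.Prime := ⟨hl⟩
    by_cases hlp : l = p
    · subst hlp
      exact win_congr e (win_classical hp5 h hok) s hs
    · rcases hd with hd | hd | hd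
      · exact absurd hd hlp
      · exact win_congr e (win_classical_cross (by omega) hl5 hlp h hok hd) s hs
      · exact win_congr e (win_classical_cross_par (by omega) hl5 hlp h hok hd) s hs

theorem aa_classS {p : ℕ} [Fact p.Prime] (hp5 : 5 ≤ p) {k : Type} [Field k] [IsAlgClosed k]
    [CharP k p] {S : Type} [Group S] [Finite S] [IsSimpleGroup S]
    (hna : ∃ a b : S, a * b ≠ b * a) (hpd : p ∣ Nat.card S) (hS : ClassS p S) (α : MulAut S)
    (hα : orderOf α = p) : AA k α := by
  rcases hS with h | ⟨m, F, _, _, hm, hF, ⟨e⟩⟩ | ⟨F, V, _, _, _, _, _, h, hF, hok, h5, ⟨e⟩⟩ |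
    ⟨⟨X, _, hX, ⟨e⟩⟩, hinn⟩
  · exact aa_good hp5 hna hpd (Or.inl h) α hα
  · exact aa_psl_def hp5 hm hna e hα
  · by_cases hO : h.IsO
    · exact aa_ln hp5 h hO (h5 hO) hna e hα
    · exact aa_pt hp5 h hok hO hna e hα
  · obtain ⟨s, hs⟩ := hinn α hα
    have hc : Subgroup.center S = ⊥ := by
      rcases IsSimpleGroup.eq_bot_or_eq_top_of_normal (Subgroup.center S) inferInstance with h | h
      · exact h
      · exfalso
        obtain ⟨a, b, hab⟩ := hna
        apply hab
        have h1 : b ∈ Subgroup.center S := by rw [h]; exact Subgroup.mem_top b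
        exact (Subgroup.mem_center_iff.1 h1 a)
    have hinj : Function.Injective (MulAut.conj : S →* MulAut S) := by
      rw [← MonoidHom.ker_eq_bot_iff, eq_bot_iff, ← hc]
      intro x hx
      rw [Subgroup.mem_center_iff]
      intro y
      have h1 : MulAut.conj x y = y := by
        rw [(MonoidHom.mem_ker).1 hx]; rfl
      rw [MulAut.conj_apply] at h1
      calc y * x = (x * y * x⁻¹) * x := by rw [h1]
        _ = x * y := by group
    have hs1 : orderOf s = p := by
      rw [← hα, hs]
      exact (orderOf_injective _ hinj s).symm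
    have h2 : RealAct k (Subgroup.zpowers (e s)) := by
      refine classX_win hp5 hX (e s) ?_
      rw [MulEquiv.orderOf_eq, hs1]
    have h3 : RealAct k (Subgroup.zpowers s) := by
      have h4 := ra_map e.symm.toMonoidHom e.symm.surjective h2
      have h5 : (Subgroup.zpowers (e s)).map e.symm.toMonoidHom = Subgroup.zpowers s := by
        rw [MonoidHom.map_zpowers]
        congr 1
        exact e.symm_apply_apply s
      rwa [h5] at h4
    rw [hs]
    exact aa_of_inner hc s h3

theorem realAct_class2 {p : ℕ} [Fact p.Prime] (hp5 : 5 ≤ p) {k : Type} [Field k] [IsAlgClosed k]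
    [CharP k p] {ι : Type} [Finite ι] (X : ι → Type) [∀ i, Group (X i)] [∀ i, Finite (X i)]
    (hX : ∀ i, ClassX p (X i)) {G : Type} [Group G] [Finite G] (R : Subgroup G) [R.Normal]
    (hR : ∀ (A B : Subgroup G) [(A.subgroupOf B).Normal], A ≤ B → B ≤ R → B.IsSubnormal →
      IsSimpleGroup (B ⧸ A.subgroupOf B) → (∃ a b : B ⧸ A.subgroupOf B, a * b ≠ b * a) →
      p ∣ Nat.card (B ⧸ A.subgroupOf B) → ClassS p (B ⧸ A.subgroupOf B))
    (π : (∀ i, X i) →* G ⧸ R) (hπ : Function.Surjective π) {P : Subgroup G}
    (hP : IsPGroup p P) (hgen : Subgroup.normalClosure (P : Set G) = ⊤) : RealAct k P := by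
  have hyp : HypW p k P R := by
    intro A B _ hAB hBR hB hS hna hpd y hy α hα hind
    exact aa_classS hp5 hna hpd (hR A B hAB hBR hB hS hna hpd) α hα
  refine (reduction_iff (by omega) R hP hgen hyp).2 ?_
  refine realAct_product X (fun i => classX_qs (hX i)) (fun i => classX_win hp5 (hX i)) π hπ
    (hP.map _) ?_
  have h1 := Subgroup.map_normalClosure (P : Set G) (QuotientGroup.mk' R)
    (QuotientGroup.mk'_surjective R)
  rw [hgen, Subgroup.map_top_of_surjective _ (QuotientGroup.mk'_surjective R)] at h1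
  rw [Subgroup.coe_map]
  exact h1.symm

end Pool.Agent.Helper54.FIN
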