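import Pool.Agent.Helper54.RT.Red

/-!
# Conversions between `RealAct` and `Realizable`
-/

set_option autoImplicit false
open scoped Pointwise
open Pool.Agent.Helper54.PW Pool.Agent.Helper54.RT

namespace Pool.Agent.Helper54.FIN

theorem real_iff {k : Type} [Field k] [IsAlgClosed k] {G : Type} [Group G] [Finite G]
    (P : Subgroup G) (x : ValuationSubring (RatFunc k)) (hx : x ≠ ⊤)
    (hxk : ∀ c : k, algebraMap k (RatFunc k) c ∈ x) :
    Realizable k G (fun _ : Fin 1 => P) (fun _ => x) ↔ RealAct k P := by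
  constructor
  · intro h
    obtain ⟨L, _, _, hfd, hgal, φ, hunr, A, hA, hAk, hAX, hst⟩ :=
      exists_cover_of_realizable P x hx hxk h
    refine ⟨L, _, _, hfd, hgal, φ.symm.toMonoidHom, φ.symm.surjective, ?_, A, hA, hAk, hAX, ?_⟩
    · intro A' hA' hA'k hXA' σ hσ
      rw [hunr A' hA' hA'k hXA' σ hσ]
      exact map_one _
    · intro g
      constructor
      · intro hg
        exact ⟨φ g, (hst _).2 ⟨g, hg, rfl⟩, φ.symm_apply_apply g⟩
      · rintro ⟨σ, hσ, rfl⟩
        obtain ⟨g', hg', rfl⟩ := (hst σ).1 hσ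
        have h1 : φ.symm.toMonoidHom (φ g') = g' := φ.symm_apply_apply g'
        rw [h1]
        exact hg'
  · intro h
    exact realizable_of_realAct P h x hx hxk

end Pool.Agent.Helper54.FIN
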