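import Mathlib

/-!
# The condition on the pairs `m, F` for which `SL_m(F)` is treated
-/

set_option autoImplicit false

namespace Pool.Agent.Helper54.FIN

/-- the finite fields and dimensions for which `PSL_m(F)` is treated: `F` has characteristic `p`, or
`m` is not the order of `|F|` modulo `p` and not `m = p ∣ |F| - 1` -/
def Win (p m : ℕ) (F : Type) [Field F] : Prop :=
  2 ≤ m ∧ 4 ≤ Nat.card F ∧
    (CharP F p ∨ (¬ CharP F p ∧ m ≠ orderOf ((Nat.card F : ℕ) : ZMod p) ∧
      ¬ (m = p ∧ p ∣ Nat.card F - 1)))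

end Pool.Agent.Helper54.FIN
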